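import Mathlib

/-!
# Squarefree monomial ideals whose v-number exceeds the depth

Over every field and for every `m ≥ 2`, the Stanley–Reisner ideal of two disjoint boundaries of
`m`-dimensional simplices has v-number `m` and depth one.
-/

set_option autoImplicit false

open MvPolynomial

namespace Pool.Agent.Results.MP_d06a13_ag.Disconnected

/-- `I` is a squarefree monomial ideal: a proper ideal generated by squarefree monomials. -/
def IsSquarefreeMonomial {K : Type*} [Field K] {n : ℕ}
    (I : Ideal (MvPolynomial (Fin n) K)) : Prop :=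
  I ≠ ⊤ ∧ ∃ S : Set (Finset (Fin n)),
    I = Ideal.span ((fun F : Finset (Fin n) => ∏ i ∈ F, (X i : MvPolynomial (Fin n) K)) '' S)

/-- The set of degrees over which the v-number of `I` is the minimum: all `d` such that for some
homogeneous `f` of degree `d` and some associated prime `P` of `I` (that is, of `R/I`) one has
`(I : f) = P`. -/
def vSet {K : Type*} [Field K] {n : ℕ} (I : Ideal (MvPolynomial (Fin n) K)) : Set ℕ :=
  {d | ∃ f : MvPolynomial (Fin n) K, f.IsHomogeneous d ∧
    ∃ P ∈ associatedPrimes (MvPolynomial (Fin n) K) (MvPolynomial (Fin n) K ⧸ I),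
      I.colon {f} = P}

/-- The v-number of `I`: the minimum of `vSet I`. -/
noncomputable def vNumber {K : Type*} [Field K] {n : ℕ} (I : Ideal (MvPolynomial (Fin n) K)) : ℕ :=
  sInf (vSet I)

/-- The depth of `R/I` with respect to the ideal `(x_1, …, x_n)`: the supremum of the lengths of
the `R/I`-regular sequences in this ideal. -/
noncomputable def depth {K : Type*} [Field K] {n : ℕ} (I : Ideal (MvPolynomial (Fin n) K)) : ℕ∞ :=
  sSup {l : ℕ∞ | ∃ rs : List (MvPolynomial (Fin n) K),
    (∀ r ∈ rs, r ∈ Ideal.span (Set.range (X : Fin n → MvPolynomial (Fin n) K))) ∧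
    RingTheory.Sequence.IsRegular (MvPolynomial (Fin n) K ⧸ I) rs ∧ l = rs.length}

section

variable {K : Type*} [Field K] {n : ℕ}

/-- faces of the disjoint union of the boundaries of the simplices on `A` and on `Aᶜ` -/
def face (A F : Finset (Fin n)) : Prop := F ⊂ A ∨ F ⊂ Aᶜ

lemma face_mono {A F G : Finset (Fin n)} (h : F ⊆ G) (hG : face A G) : face A F := by
  rcases hG with hG | hG
  · exact Or.inl (lt_of_le_of_lt h hG)
  · exact Or.inr (lt_of_le_of_lt h hG)

/-- exponent vector of a squarefree monomial -/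
noncomputable def ev (F : Finset (Fin n)) : Fin n →₀ ℕ := ∑ i ∈ F, Finsupp.single i 1

lemma ev_apply (F : Finset (Fin n)) (i : Fin n) : ev F i = if i ∈ F then 1 else 0 := by
  classical
  simp [ev, Finsupp.finsetSum_apply, Finsupp.single_apply]

lemma ev_support (F : Finset (Fin n)) : (ev F).support = F := by
  ext i; simp [ev_apply]

lemma ev_le_iff (F : Finset (Fin n)) (s : Fin n →₀ ℕ) : ev F ≤ s ↔ F ⊆ s.support := by
  constructor
  · intro h i hi
    have := h i
    rw [ev_apply, if_pos hi] at this
    rw [Finsupp.mem_support_iff]; omega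
  · intro h i
    rw [ev_apply]
    split_ifs with hi
    · have := Finsupp.mem_support_iff.1 (h hi); omega
    · exact Nat.zero_le _

lemma prod_X (F : Finset (Fin n)) :
    (∏ i ∈ F, (X i : MvPolynomial (Fin n) K)) = monomial (ev F) 1 := by
  rw [ev, monomial_sum_one]; rfl

lemma deg_ev (F : Finset (Fin n)) : (ev F).degree = F.card := by
  simp [ev, map_sum]

/-- the Stanley–Reisner ideal -/
noncomputable def I (K : Type*) [Field K] {n : ℕ} (A : Finset (Fin n)) :
    Ideal (MvPolynomial (Fin n) K) :=
  Ideal.span ((fun F : Finset (Fin n) => ∏ i ∈ F, (X i : MvPolynomial (Fin n) K)) ''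
    {F | ¬ face A F})

lemma mem_I {A : Finset (Fin n)} {f : MvPolynomial (Fin n) K} :
    f ∈ I K A ↔ ∀ s ∈ f.support, ¬ face A s.support := by
  have : ((fun F : Finset (Fin n) => ∏ i ∈ F, (X i : MvPolynomial (Fin n) K)) ''
    {F | ¬ face A F}) = (fun s => monomial s (1 : K)) '' (ev '' {F | ¬ face A F}) := by
    rw [Set.image_image]
    exact Set.image_congr fun F _ => prod_X F
  rw [I, this, mem_ideal_span_monomial_image]
  refine forall₂_congr fun s _ => ?_
  constructor
  · rintro ⟨_, ⟨F, hF, rfl⟩, h⟩ hs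
    exact hF (face_mono ((ev_le_iff F s).1 h) hs)
  · intro h
    exact ⟨_, ⟨s.support, h, rfl⟩, (ev_le_iff _ _).2 (subset_refl _)⟩

lemma support_mul_monomial {f : MvPolynomial (Fin n) K} (s : Fin n →₀ ℕ) {t : Fin n →₀ ℕ}
    (h : t ∈ (monomial s 1 * f).support) : ∃ u ∈ f.support, t = s + u := by
  classical
  rw [mem_support_iff, coeff_monomial_mul'] at h
  split_ifs at h with hs
  · refine ⟨t - s, ?_, ?_⟩
    · rw [mem_support_iff]; simpa using h
    · rw [add_tsub_cancel_of_le hs]
  · exact absurd rfl h

lemma mem_support_mul_monomial {f : MvPolynomial (Fin n) K} (s : Fin n →₀ ℕ) {u : Fin n →₀ ℕ}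
    (h : u ∈ f.support) : s + u ∈ (monomial s 1 * f).support := by
  rw [mem_support_iff, coeff_monomial_mul, one_mul]; exact mem_support_iff.1 h

/-- a monomial times `f` lies in the ideal -/
lemma monomial_mul_mem {A : Finset (Fin n)} {f : MvPolynomial (Fin n) K} {s : Fin n →₀ ℕ} :
    monomial s 1 * f ∈ I K A ↔ ∀ u ∈ f.support, ¬ face A (s.support ∪ u.support) := by
  classical
  rw [mem_I]
  have key : ∀ u : Fin n →₀ ℕ, (s + u).support = s.support ∪ u.support := by
    intro u
    ext i
    simp only [Finsupp.mem_support_iff, Finsupp.add_apply, Finset.mem_union]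
    omega
  constructor
  · intro h u hu
    have := h _ (mem_support_mul_monomial s hu)
    rwa [key] at this
  · intro h t ht
    obtain ⟨u, hu, rfl⟩ := support_mul_monomial s ht
    rw [key]; exact h u hu

lemma face_compl {A F : Finset (Fin n)} : face Aᶜ F ↔ face A F := by
  simp only [face, compl_compl]; exact or_comm

lemma I_compl (A : Finset (Fin n)) : I K Aᶜ = I K A := by
  ext f; simp only [mem_I, face_compl]

lemma not_face_of {A F : Finset (Fin n)} {a : Fin n} (ha : a ∈ A) (h : A ⊆ F) : ¬ face A F := by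
  rintro (h1 | h1)
  · exact h1.2 h
  · exact (Finset.mem_compl.1 (h1.1 (h ha))) ha

lemma not_face_of' {A F : Finset (Fin n)} {a b : Fin n} (ha : a ∈ A) (hb : b ∉ A) (haF : a ∈ F)
    (hbF : b ∈ F) : ¬ face A F := by
  rintro (h1 | h1)
  · exact hb (h1.1 hbF)
  · exact (Finset.mem_compl.1 (h1.1 haF)) ha

lemma face_empty {A : Finset (Fin n)} {a : Fin n} (ha : a ∈ A) : face A ∅ :=
  Or.inl ⟨Finset.empty_subset _, fun h => Finset.notMem_empty a (h ha)⟩

/-- a nonzero element `f` modulo the ideal which has small degree has a nonprime annihilator -/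
lemma not_prime_aux {A : Finset (Fin n)} {m : ℕ} (hA : A.card = m + 1)
    {f : MvPolynomial (Fin n) K} {d : ℕ} (hf : f.IsHomogeneous d) (hd : d < m)
    {u : Fin n →₀ ℕ} (hu : u ∈ f.support) (huA : u.support ⊆ A) :
    ¬ ((I K A).colon {f}).IsPrime := by
  classical
  intro hp
  have hdeg : u.degree = d := by
    by_contra hne
    exact mem_support_iff.1 hu (hf.coeff_eq_zero hne)
  have hcard : u.support.card ≤ d := by
    rw [← hdeg, Finsupp.degree_apply]
    have := Finset.card_nsmul_le_sum u.support u 1 (fun i hi => by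
      have := Finsupp.mem_support_iff.1 hi; omega)
    simpa using this
  have h2 : 1 < (A \ u.support).card := by
    have := Finset.le_card_sdiff u.support A
    omega
  obtain ⟨a, ha, b, hb, hab⟩ := Finset.one_lt_card.1 h2
  rw [Finset.mem_sdiff] at ha hb
  have key : ∀ c ∈ A, c ∉ u.support →
      (monomial (ev (A.erase c)) (1 : K)) ∉ (I K A).colon {f} := by
    intro c hc hcu h
    rw [Submodule.mem_colon_singleton, smul_eq_mul, monomial_mul_mem] at h
    refine h u hu (Or.inl ?_)
    rw [ev_support]
    refine lt_of_le_of_lt ?_ (Finset.erase_ssubset hc)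
    intro i hi
    rw [Finset.mem_union] at hi
    rcases hi with hi | hi
    · exact hi
    · exact Finset.mem_erase.2 ⟨fun h => hcu (h ▸ hi), huA hi⟩
  have hmul : (monomial (ev (A.erase a)) (1 : K)) * monomial (ev (A.erase b)) (1 : K) ∈
      (I K A).colon {f} := by
    rw [Submodule.mem_colon_singleton, smul_eq_mul]
    refine Ideal.mul_mem_right _ _ ?_
    rw [monomial_mul_mem]
    intro v hv
    have hv' : v = ev (A.erase b) := by
      by_contra hne
      rw [mem_support_iff, coeff_monomial, if_neg (fun h => hne h.symm)] at hv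
      exact hv rfl
    rw [hv', ev_support, ev_support]
    refine not_face_of ha.1 ?_
    intro i hi
    rw [Finset.mem_union, Finset.mem_erase, Finset.mem_erase]
    by_cases hia : i = a
    · right; exact ⟨fun h => hab (hia.symm.trans h), hi⟩
    · left; exact ⟨hia, hi⟩
  rcases hp.mem_or_mem hmul with h | h
  · exact key a ha.1 ha.2 h
  · exact key b hb.1 hb.2 h

lemma not_prime {A : Finset (Fin n)} {m : ℕ} (hA : A.card = m + 1) (hB : Aᶜ.card = m + 1)
    {f : MvPolynomial (Fin n) K} {d : ℕ} (hf : f.IsHomogeneous d) (hd : d < m) :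
    ¬ ((I K A).colon {f}).IsPrime := by
  by_cases hfI : f ∈ I K A
  · intro hp
    apply hp.ne_top
    rw [Ideal.eq_top_iff_one, Submodule.mem_colon_singleton, one_smul]
    exact hfI
  · rw [mem_I] at hfI
    push Not at hfI
    obtain ⟨u, hu, hface⟩ := hfI
    rcases hface with hface | hface
    · exact not_prime_aux hA hf hd hu hface.1
    · rw [← I_compl]
      exact not_prime_aux hB hf hd hu hface.1

/-- the retraction killing the variables outside `F` -/
noncomputable def pr (K : Type*) [Field K] (F : Finset (Fin n)) :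
    MvPolynomial (Fin n) K →ₐ[K] MvPolynomial (Fin n) K :=
  aeval fun i => if i ∈ F then X i else 0

lemma pr_monomial (F : Finset (Fin n)) (s : Fin n →₀ ℕ) (c : K) :
    pr K F (monomial s c) = if s.support ⊆ F then monomial s c else 0 := by
  classical
  rw [pr, aeval_monomial]
  split_ifs with h
  · rw [monomial_eq, algebraMap_eq]
    congr 1
    refine Finsupp.prod_congr fun i hi => ?_
    rw [if_pos (h hi)]
  · rw [Finset.not_subset] at h
    obtain ⟨i, hi, hiF⟩ := h
    rw [Finsupp.prod, Finset.prod_eq_zero hi, mul_zero]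
    rw [if_neg hiF, zero_pow (Finsupp.mem_support_iff.1 hi)]

lemma coeff_pr (F : Finset (Fin n)) (f : MvPolynomial (Fin n) K) (s : Fin n →₀ ℕ) :
    coeff s (pr K F f) = if s.support ⊆ F then coeff s f else 0 := by
  classical
  induction f using MvPolynomial.induction_on' with
  | monomial t c =>
    rw [pr_monomial]
    by_cases hts : t = s
    · subst hts; split_ifs <;> simp
    · split_ifs <;> simp [coeff_monomial, hts]
  | add p q hp hq =>
    rw [map_add, coeff_add, coeff_add, hp, hq]
    split_ifs <;> simp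

lemma pr_eq_zero (F : Finset (Fin n)) (f : MvPolynomial (Fin n) K) :
    pr K F f = 0 ↔ ∀ s ∈ f.support, ¬ s.support ⊆ F := by
  constructor
  · intro h s hs hsF
    have := congrArg (coeff s) h
    rw [coeff_pr, if_pos hsF, coeff_zero] at this
    exact mem_support_iff.1 hs this
  · intro h
    ext s
    rw [coeff_pr, coeff_zero]
    split_ifs with hs
    · by_contra hne
      exact h s (mem_support_iff.2 hne) hs
    · rfl

/-- the colon ideal by the monomial of a facet -/
lemma colon_facet {A : Finset (Fin n)} {a b : Fin n} (ha : a ∈ A) (hb : b ∈ A) (hab : a ≠ b) :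
    (I K A).colon {monomial (ev (A.erase a)) (1 : K)} = RingHom.ker (pr K (A.erase a)) := by
  classical
  ext g
  rw [Submodule.mem_colon_singleton, smul_eq_mul, mul_comm, monomial_mul_mem, RingHom.mem_ker,
    pr_eq_zero, ev_support]
  refine forall₂_congr fun s _ => not_congr ?_
  constructor
  · intro h i hi
    by_contra hia
    by_cases hiA : i ∈ A
    · have : i = a := by
        by_contra hne
        exact hia (Finset.mem_erase.2 ⟨hne, hiA⟩)
      subst this
      refine not_face_of ha ?_ h
      intro j hj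
      by_cases hji : j = i
      · exact Finset.mem_union_right _ (hji ▸ hi)
      · exact Finset.mem_union_left _ (Finset.mem_erase.2 ⟨hji, hj⟩)
    · exact not_face_of' hb hiA (Finset.mem_union_left _ (Finset.mem_erase.2 ⟨hab.symm, hb⟩))
        (Finset.mem_union_right _ hi) h
  · intro h
    rw [Finset.union_eq_left.2 h]
    exact Or.inl (Finset.erase_ssubset ha)

lemma vSet_mem {A : Finset (Fin n)} {m : ℕ} (hm : 1 ≤ m) (hA : A.card = m + 1) :
    m ∈ vSet (I K A) := by
  classical
  obtain ⟨a, ha, b, hb, hab⟩ := Finset.one_lt_card.1 (by omega : 1 < A.card)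
  refine ⟨monomial (ev (A.erase a)) (1 : K), ?_, RingHom.ker (pr K (A.erase a)), ?_,
    colon_facet ha hb hab⟩
  · apply isHomogeneous_monomial
    rw [deg_ev, Finset.card_erase_of_mem ha, hA]; rfl
  · rw [AssociatedPrimes.mem_iff, isAssociatedPrime_iff]
    refine ⟨RingHom.ker_isPrime _, Ideal.Quotient.mk _ (monomial (ev (A.erase a)) (1 : K)), ?_⟩
    rw [← colon_facet ha hb hab]
    ext g
    rw [Submodule.mem_colon_singleton, Submodule.mem_colon_singleton, Submodule.mem_bot,
      smul_eq_mul]
    exact (Ideal.Quotient.eq_zero_iff_mem (I := I K A)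
      (a := g * monomial (ev (A.erase a)) (1 : K))).symm

end

section depth

variable {K : Type*} [Field K] {n : ℕ}

/-- the ideal of the variables -/
noncomputable abbrev mm (K : Type*) [Field K] (n : ℕ) : Ideal (MvPolynomial (Fin n) K) :=
  Ideal.span (Set.range (X : Fin n → MvPolynomial (Fin n) K))

lemma coeff_zero_of_mem {f : MvPolynomial (Fin n) K} (hf : f ∈ mm K n) : coeff 0 f = 0 := by
  have h : mm K n ≤ RingHom.ker (constantCoeff (R := K) (σ := Fin n)) := by
    rw [Ideal.span_le]
    rintro _ ⟨i, rfl⟩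
    simp
  exact h hf

/-- for `i ∈ A` and `f` without constant term, `X i * f` and `X i * pr A f` agree modulo `I` -/
lemma X_mul_sub {A : Finset (Fin n)} {i : Fin n} (hi : i ∈ A) {f : MvPolynomial (Fin n) K} :
    X i * f - X i * pr K A f ∈ I K A := by
  classical
  rw [← mul_sub, show (X i : MvPolynomial (Fin n) K) = monomial (Finsupp.single i 1) 1 from rfl,
    monomial_mul_mem]
  intro u hu
  have huA : ¬ u.support ⊆ A := by
    intro h
    rw [mem_support_iff, coeff_sub, coeff_pr, if_pos h, sub_self] at hu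
    exact hu rfl
  rw [Finset.not_subset] at huA
  obtain ⟨j, hj, hjA⟩ := huA
  refine not_face_of' hi hjA (Finset.mem_union_left _ ?_) (Finset.mem_union_right _ hj)
  simp

/-- for `j ∉ A` and `f` without constant term, `X j * pr A f` lies in `I` -/
lemma X_mul_mem {A : Finset (Fin n)} {j : Fin n} (hj : j ∉ A) {f : MvPolynomial (Fin n) K}
    (hf : coeff 0 f = 0) : X j * pr K A f ∈ I K A := by
  classical
  rw [show (X j : MvPolynomial (Fin n) K) = monomial (Finsupp.single j 1) 1 from rfl,
    monomial_mul_mem]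
  intro u hu
  rw [mem_support_iff, coeff_pr] at hu
  split_ifs at hu with huA
  · have hu0 : u ≠ 0 := by
      rintro rfl; exact hu hf
    obtain ⟨i, hi⟩ := Finsupp.support_nonempty_iff.2 hu0
    refine not_face_of' (huA hi) hj (Finset.mem_union_right _ hi) (Finset.mem_union_left _ ?_)
    simp
  · exact absurd rfl hu

/-- If `X i * g` lies in the ideal and `{i}` is a face, then `g` has no constant term. -/
lemma coeff_zero_of_X_mul {A : Finset (Fin n)} {i : Fin n} (hi : face A {i})
    {g : MvPolynomial (Fin n) K} (hg : X i * g ∈ I K A) : coeff 0 g = 0 := by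
  classical
  by_contra hne
  rw [show (X i : MvPolynomial (Fin n) K) = monomial (Finsupp.single i 1) 1 from rfl,
    monomial_mul_mem] at hg
  refine hg 0 (mem_support_iff.2 hne) ?_
  have h1 : (Finsupp.single i 1 : Fin n →₀ ℕ).support = {i} := by simp
  rw [h1]
  simpa using hi

lemma pr_mem {A F : Finset (Fin n)} {f : MvPolynomial (Fin n) K} (hf : f ∈ I K A) :
    pr K F f ∈ I K A := by
  rw [mem_I] at hf ⊢
  intro s hs
  apply hf
  rw [mem_support_iff, coeff_pr] at hs
  rw [mem_support_iff]
  intro h0
  rw [h0] at hs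
  split_ifs at hs <;> exact hs rfl

/-- one half of the argument: `a` regular, `a * c ≡ pr A a` modulo `I`: the constant term of `c`
is one -/
lemma coeff_eq_one {A : Finset (Fin n)} {i : Fin n} (hiA : i ∈ A) (hi : face A {i})
    {a c : MvPolynomial (Fin n) K} (hreg : ∀ g, a * g ∈ I K A → g ∈ I K A)
    (hc : a * c - pr K A a ∈ I K A) : coeff 0 c = 1 := by
  have h1 : pr K A a * (pr K A c - 1) ∈ I K A := by
    have := pr_mem (F := A) hc
    have hid : pr K A (pr K A a) = pr K A a := by
      ext s; rw [coeff_pr, coeff_pr]; split_ifs <;> rfl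
    rwa [map_sub, map_mul, hid, ← mul_sub_one] at this
  have h2 : a * (X i * (pr K A c - 1)) ∈ I K A := by
    have := (I K A).add_mem ((I K A).mul_mem_right (pr K A c - 1) (X_mul_sub (f := a) hiA))
      ((I K A).mul_mem_left (X i) h1)
    convert this using 1
    ring
  have h3 := coeff_zero_of_X_mul hi (hreg _ h2)
  rw [coeff_sub, coeff_pr, if_pos (by simp)] at h3
  rw [coeff_zero_one] at h3
  exact sub_eq_zero.1 h3

lemma coeff_eq_zero {A : Finset (Fin n)} {j : Fin n} (hjA : j ∉ A) (hj : face A {j})
    {a c : MvPolynomial (Fin n) K} (ha0 : coeff 0 a = 0)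
    (hreg : ∀ g, a * g ∈ I K A → g ∈ I K A)
    (hc : a * c - pr K A a ∈ I K A) : coeff 0 c = 0 := by
  have h1 : pr K Aᶜ a * pr K Aᶜ c ∈ I K A := by
    have := pr_mem (F := Aᶜ) hc
    have hid : pr K Aᶜ (pr K A a) = 0 := by
      rw [pr_eq_zero]
      intro s hs hsA
      rw [mem_support_iff, coeff_pr] at hs
      split_ifs at hs with h
      · have : s = 0 := by
          rw [← Finsupp.support_eq_empty, Finset.eq_empty_iff_forall_notMem]
          intro i hi
          exact (Finset.mem_compl.1 (hsA hi)) (h hi)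
        rw [this] at hs; exact hs ha0
      · exact hs rfl
    rwa [map_sub, map_mul, hid, sub_zero] at this
  have h2 : a * (X j * pr K Aᶜ c) ∈ I K A := by
    have hj' : j ∈ Aᶜ := Finset.mem_compl.2 hjA
    have := (I K A).add_mem ((I K A).mul_mem_right (pr K Aᶜ c)
      (I_compl (K := K) A ▸ X_mul_sub (f := a) hj')) ((I K A).mul_mem_left (X j) h1)
    convert this using 1
    ring
  have h3 := coeff_zero_of_X_mul hj (hreg _ h2)
  rwa [coeff_pr, if_pos (by simp)] at h3

/-- no regular sequence of length two -/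
lemma no_two {A : Finset (Fin n)} {i j : Fin n} (hiA : i ∈ A) (hi : face A {i}) (hjA : j ∉ A)
    (hj : face A {j}) {a b : MvPolynomial (Fin n) K} (ha : a ∈ mm K n) (hb : b ∈ mm K n)
    (hreg : ∀ g, a * g ∈ I K A → g ∈ I K A)
    (hreg' : ∀ g, b * g ∈ I K A ⊔ Ideal.span {a} → g ∈ I K A ⊔ Ideal.span {a}) : False := by
  have ha0 := coeff_zero_of_mem ha
  have h1 : b * pr K A a ∈ I K A ⊔ Ideal.span {a} := by
    have hle : mm K n ≤ (I K A ⊔ Ideal.span {a}).colon {pr K A a} := by
      rw [Ideal.span_le]
      rintro _ ⟨l, rfl⟩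
      rw [SetLike.mem_coe, Submodule.mem_colon_singleton, smul_eq_mul]
      by_cases hl : l ∈ A
      · have h2 : X l * a - X l * pr K A a ∈ I K A ⊔ Ideal.span {a} :=
          Ideal.mem_sup_left (X_mul_sub (K := K) (f := a) hl)
        have h3 : X l * a ∈ I K A ⊔ Ideal.span {a} :=
          Ideal.mem_sup_right (Ideal.mul_mem_left _ _ (Ideal.mem_span_singleton_self a))
        have := Submodule.sub_mem _ h3 h2
        convert this using 1
        ring
      · exact Ideal.mem_sup_left (X_mul_mem hl ha0)
    exact (Submodule.mem_colon_singleton.1 (hle hb))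
  have h2 := hreg' _ h1
  rw [Submodule.mem_sup] at h2
  obtain ⟨y, hy, z, hz, hyz⟩ := h2
  obtain ⟨c, rfl⟩ := Ideal.mem_span_singleton.1 hz
  have hc : a * c - pr K A a ∈ I K A := by
    rw [← hyz]
    have := (I K A).neg_mem hy
    convert this using 1
    ring
  have e1 := coeff_eq_one hiA hi hreg hc
  have e2 := coeff_eq_zero hjA hj ha0 hreg hc
  exact one_ne_zero (e1.symm.trans e2)

end depth

section final

variable {K : Type*} [Field K] {n : ℕ}

/-- the sum of the variables is a nonzerodivisor modulo the ideal -/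
lemma ell_reg {A : Finset (Fin n)} {i : Fin n} (hi : face A {i}) (g : MvPolynomial (Fin n) K)
    (h : (∑ l : Fin n, X l) * g ∈ I K A) : g ∈ I K A := by
  classical
  -- a nonempty face containing a face
  have key : ∀ F : Finset (Fin n), F.Nonempty → face A F → pr K F g = 0 := by
    rintro F ⟨j, hj⟩ hF
    have h1 : pr K F ((∑ l : Fin n, X l) * g) = 0 := by
      rw [pr_eq_zero]
      intro s hs hsF
      exact (mem_I.1 h s hs) (face_mono hsF hF)
    rw [map_mul, mul_eq_zero] at h1
    refine h1.resolve_left ?_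
    intro h0
    have := congrArg (coeff (Finsupp.single j 1)) h0
    rw [coeff_pr, coeff_zero, if_pos, coeff_sum] at this
    · have h2 : ∀ l : Fin n, coeff (Finsupp.single j 1) (X l : MvPolynomial (Fin n) K) =
          if l = j then 1 else 0 := by
        intro l
        rw [MvPolynomial.coeff_X]
        by_cases hlj : l = j
        · simp [hlj]
        · rw [if_neg hlj, if_neg]
          intro h3
          exact hlj (Finsupp.single_left_injective one_ne_zero h3)
      rw [Finset.sum_congr rfl (fun l _ => h2 l)] at this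
      simp at this
    · have h1 : (Finsupp.single j 1 : Fin n →₀ ℕ).support = {j} := by simp
      rw [h1]
      simpa using hj
  rw [mem_I]
  intro s hs hface
  by_cases hne : s.support.Nonempty
  · exact (pr_eq_zero _ _).1 (key _ hne hface) s hs (Finset.Subset.refl _)
  · refine (pr_eq_zero _ _).1 (key {i} (Finset.singleton_nonempty i) hi) s hs ?_
    rw [Finset.not_nonempty_iff_eq_empty.1 hne]
    exact Finset.empty_subset _

lemma smul_reg_of {A : Finset (Fin n)} {a : MvPolynomial (Fin n) K}
    (h : ∀ g, a * g ∈ I K A → g ∈ I K A) :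
    IsSMulRegular (MvPolynomial (Fin n) K ⧸ I K A) a := by
  rw [isSMulRegular_iff_right_eq_zero_of_smul]
  intro x hx
  obtain ⟨g, rfl⟩ := Ideal.Quotient.mk_surjective x
  exact Ideal.Quotient.eq_zero_iff_mem.2 (h g ((Ideal.Quotient.eq_zero_iff_mem
    (I := I K A) (a := a * g)).1 hx))

lemma of_smul_reg {A : Finset (Fin n)} {a : MvPolynomial (Fin n) K}
    (h : IsSMulRegular (MvPolynomial (Fin n) K ⧸ I K A) a) (g : MvPolynomial (Fin n) K)
    (hg : a * g ∈ I K A) : g ∈ I K A := by
  rw [isSMulRegular_iff_right_eq_zero_of_smul] at h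
  exact Ideal.Quotient.eq_zero_iff_mem.1 (h (Ideal.Quotient.mk _ g)
    ((Ideal.Quotient.eq_zero_iff_mem (I := I K A) (a := a * g)).2 hg))

lemma of_smul_reg' {A : Finset (Fin n)} {a b : MvPolynomial (Fin n) K}
    (h : IsSMulRegular (QuotSMulTop a (MvPolynomial (Fin n) K ⧸ I K A)) b)
    (g : MvPolynomial (Fin n) K)
    (hg : b * g ∈ I K A ⊔ Ideal.span {a}) : g ∈ I K A ⊔ Ideal.span {a} := by
  have tr : ∀ g : MvPolynomial (Fin n) K,
      (Submodule.Quotient.mk (Ideal.Quotient.mk (I K A) g) :
        QuotSMulTop a (MvPolynomial (Fin n) K ⧸ I K A)) = 0 ↔ g ∈ I K A ⊔ Ideal.span {a} := by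
    intro g
    rw [Submodule.Quotient.mk_eq_zero, Submodule.mem_smul_pointwise_iff_exists]
    constructor
    · rintro ⟨y, -, hy⟩
      obtain ⟨c, rfl⟩ := Ideal.Quotient.mk_surjective y
      have hy' : Ideal.Quotient.mk (I K A) (a * c) = Ideal.Quotient.mk (I K A) g := hy
      rw [Ideal.Quotient.eq] at hy'
      rw [Submodule.mem_sup]
      refine ⟨g - a * c, ?_, a * c, Ideal.mem_span_singleton.2 ⟨c, rfl⟩, by ring⟩
      have := (I K A).neg_mem hy'
      rwa [neg_sub] at this
    · intro hg
      rw [Submodule.mem_sup] at hg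
      obtain ⟨y, hy, z, hz, rfl⟩ := hg
      obtain ⟨c, rfl⟩ := Ideal.mem_span_singleton.1 hz
      refine ⟨Ideal.Quotient.mk _ c, trivial, ?_⟩
      change Ideal.Quotient.mk (I K A) (a * c) = Ideal.Quotient.mk (I K A) (y + a * c)
      rw [Ideal.Quotient.eq]
      have := (I K A).neg_mem hy
      convert this using 1
      ring
  rw [isSMulRegular_iff_right_eq_zero_of_smul] at h
  rw [← tr]
  apply h
  exact (tr (b * g)).2 hg

lemma top_ne {A : Finset (Fin n)} (hA : I K A ≤ mm K n) {J : Ideal (MvPolynomial (Fin n) K)}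
    (hJ : J ≤ mm K n) :
    (⊤ : Submodule (MvPolynomial (Fin n) K) (MvPolynomial (Fin n) K ⧸ I K A)) ≠ J • ⊤ := by
  intro h
  have h1 : (1 : MvPolynomial (Fin n) K ⧸ I K A) ∈
      (J • ⊤ : Submodule (MvPolynomial (Fin n) K) (MvPolynomial (Fin n) K ⧸ I K A)) := by
    rw [← h]; trivial
  have key : ∀ x ∈ (J • ⊤ : Submodule (MvPolynomial (Fin n) K) (MvPolynomial (Fin n) K ⧸ I K A)),
      ∃ f ∈ mm K n, Ideal.Quotient.mk (I K A) f = x := by
    intro x hx
    induction hx using Submodule.smul_induction_on' with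
    | smul r hr y hy =>
      obtain ⟨g, rfl⟩ := Ideal.Quotient.mk_surjective y
      exact ⟨r * g, Ideal.mul_mem_right _ _ (hJ hr), rfl⟩
    | add x hx y hy h1 h2 =>
      obtain ⟨f, hf, rfl⟩ := h1
      obtain ⟨g, hg, rfl⟩ := h2
      exact ⟨f + g, Ideal.add_mem _ hf hg, map_add _ _ _⟩
  obtain ⟨f, hf, hf1⟩ := key _ h1
  have h2 : f - 1 ∈ I K A := by
    rw [← Ideal.Quotient.eq, hf1, map_one]
  have h3 := coeff_zero_of_mem (hA h2)
  rw [coeff_sub, coeff_zero_of_mem hf, coeff_zero_one] at h3
  simp at h3

lemma I_le {A : Finset (Fin n)} {i : Fin n} (hi : i ∈ A) : I K A ≤ mm K n := by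
  intro f hf
  rw [mm, ← Set.image_univ, mem_ideal_span_X_image]
  intro s hs
  have h1 := mem_I.1 hf s hs
  by_contra hne
  push Not at hne
  apply h1
  have : s.support = ∅ := by
    rw [Finset.eq_empty_iff_forall_notMem]
    intro j hj
    exact Finsupp.mem_support_iff.1 hj (hne j trivial)
  rw [this]
  exact face_empty hi

lemma depth_eq_one {A : Finset (Fin n)} {i j : Fin n} (hiA : i ∈ A) (hi : face A {i})
    (hjA : j ∉ A) (hj : face A {j}) : depth (I K A) = 1 := by
  apply le_antisymm
  · apply sSup_le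
    rintro _ ⟨rs, hrs, hreg, rfl⟩
    match rs, hrs, hreg with
    | [], _, _ => simp
    | [a], _, _ => simp
    | a :: b :: rs, hrs, hreg =>
      exfalso
      rw [RingTheory.Sequence.isRegular_cons_iff, RingTheory.Sequence.isRegular_cons_iff] at hreg
      exact no_two hiA hi hjA hj (hrs a (by simp)) (hrs b (by simp))
        (of_smul_reg hreg.1) (of_smul_reg' hreg.2.1)
  · apply le_sSup
    have hell : (∑ l : Fin n, X l : MvPolynomial (Fin n) K) ∈ mm K n :=
      Ideal.sum_mem _ fun l _ => Ideal.subset_span ⟨l, rfl⟩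
    refine ⟨[∑ l : Fin n, X l], ?_, ⟨?_, ?_⟩, by simp⟩
    · intro r hr
      rw [List.mem_singleton] at hr
      rw [hr]; exact hell
    · rw [RingTheory.Sequence.isWeaklyRegular_singleton_iff]
      exact smul_reg_of (ell_reg hi)
    · apply top_ne (I_le hiA)
      rw [Ideal.ofList_singleton, Ideal.span_le]
      simpa using hell

end final

/-- **The v-number can exceed the depth.** For every field `K` and every `m ≥ 2` there is a
squarefree monomial ideal `I` in `2 (m + 1)` variables whose v-number is `m` and for which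
`R/I` has depth one. -/
theorem result (K : Type*) [Field K] (m : ℕ) (hm : 2 ≤ m) :
    ∃ I : Ideal (MvPolynomial (Fin (2 * (m + 1))) K),
      IsSquarefreeMonomial I ∧ (vSet I).Nonempty ∧ vNumber I = m ∧ depth I = 1 := by
  classical
  let A : Finset (Fin (2 * (m + 1))) :=
    (Finset.univ : Finset (Fin (m + 1))).map (Fin.castLEEmb (by omega))
  have hA : A.card = m + 1 := by
    rw [Finset.card_map, Finset.card_univ, Fintype.card_fin]
  have hB : Aᶜ.card = m + 1 := by
    rw [Finset.card_compl, hA, Fintype.card_fin]; omega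
  obtain ⟨i, hiA⟩ : A.Nonempty := Finset.card_pos.1 (by omega)
  obtain ⟨j, hjB⟩ : Aᶜ.Nonempty := Finset.card_pos.1 (by omega)
  have hjA : j ∉ A := Finset.mem_compl.1 hjB
  have hi : face A {i} := by
    left
    refine ⟨Finset.singleton_subset_iff.2 hiA, fun h => ?_⟩
    have := Finset.card_le_card h
    rw [hA, Finset.card_singleton] at this
    omega
  have hj : face A {j} := by
    right
    refine ⟨Finset.singleton_subset_iff.2 hjB, fun h => ?_⟩
    have := Finset.card_le_card h
    rw [hB, Finset.card_singleton] at this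
    omega
  have hleast : IsLeast (vSet (I K A)) m := by
    refine ⟨vSet_mem (by omega) hA, ?_⟩
    rintro d ⟨f, hf, P, hP, hcol⟩
    by_contra hlt
    apply not_prime (K := K) hA hB hf (lt_of_not_ge hlt)
    rw [hcol]
    exact (AssociatedPrimes.mem_iff.1 hP).isPrime
  refine ⟨I K A, ⟨?_, {F | ¬ face A F}, rfl⟩, hleast.nonempty, hleast.csInf_eq,
    depth_eq_one hiA hi hjA hj⟩
  intro h
  have h1 : (1 : MvPolynomial (Fin (2 * (m + 1))) K) ∈ I K A := by rw [h]; trivial
  have := coeff_zero_of_mem (I_le hiA h1)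
  rw [coeff_zero_one] at this
  exact one_ne_zero this

end Pool.Agent.Results.MP_d06a13_ag.Disconnected
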